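import Mathlib
import Pool.Agent.W458.Pole
import Pool.Agent.W458.TopProof

/-!
# A pole of an infinite cyclic zeta function that no Alexander polynomial sees

Let `Y = ℂ^* × ℂ`, `D = ℂ^* × {0}` and `T^* = {(x, z) : x ≠ 0, 0 < |z| < 1}`, a punctured regular
neighbourhood of the smooth divisor `D` of the smooth variety `Y`. The identity of `Y` is a log
resolution, with one divisor `E_1 = D` and `ν_1 = 1`. For `m ≥ 2` let `Δ : π_1(T^*) = ℤ × ℤ → ℤ` be
the epimorphism `(a, c) ↦ a + m c`, which is induced by the map `(x, z) ↦ x z ^ m`; it takes the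
value `m_1 = m` on the boundary of a small disc transversal to `D`. The cover of `D` induced by
`Δ` modulo `m` is `ℂ^* → ℂ^*`, `u ↦ u ^ m`, so that
`Z_{Y, D, Δ}(T) = [ℂ^*, μ_m] 𝕃^{-1} T ^ m / (1 - 𝕃^{-1} T ^ m)`.
Every finite set of poles of this series contains some `(a, m a)`, but `exp (-2 π i / m)` is not an
eigenvalue of the deck transformation on the cohomology of the infinite cyclic cover.
-/

namespace Pool.Agent.Results.MP_5b74a0_ag.PoleNotAlexander

open Pool.Agent.W458

/-- For every `m ≥ 2` the space `Cov m` is an infinite cyclic cover of `T^*` (the quotient of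
`Cov m` by a free action of `ℤ` is `T^*`, and `Cov m` is path connected, so the corresponding
homomorphism `Δ : π_1(T^*) → ℤ` is onto), `Δ` takes the value `m` on the boundary of a small disc
transversal to `D`, the cover of `D` induced by `Δ` modulo `m` is `u ↦ u ^ m`, and every finite set
`S` of poles of the infinite cyclic zeta function contains a pair `(a, b)` such that
`exp (-2 π i a / b)` is for no `n` an eigenvalue of the deck transformation on `H^n(Cov m; ℂ)`. -/
theorem result (m : ℕ) (hm : 2 ≤ m) :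
    ∃ h : IsAddQuotientCoveringMap (proj m) ℤ,
      PathConnectedSpace (Cov m) ∧
      (∀ (b : TStar) (e : proj m ⁻¹' {b}),
        (h.isCoveringMap.monodromy (Path.Homotopic.Quotient.mk (meridian b)) e : Cov m) =
          (m : ℤ) +ᵥ (e : Cov m)) ∧
      (∃ q : C(Cov m, ℂ), ∀ e : Cov m, q e ≠ 0 ∧ q e ^ m = (proj m e).1.1 ∧
        q ((1 : ℤ) +ᵥ e) = Complex.exp (2 * Real.pi * Complex.I / m) * q e) ∧
      ∀ S : Finset (ℕ × ℕ),
        IsPoleSet S (zeta (J := Unit) (fun _ => m) (fun _ => 1)
          (fun _ => Gm m (lt_of_lt_of_le two_pos hm))) →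
        ∃ s ∈ S, ∀ n : ℕ, ¬ IsCohomologyEigenvalue (deck m) n
          (Complex.exp (-(2 * Real.pi * Complex.I * s.1 / s.2))) := by
  have hm0 : 0 < m := lt_of_lt_of_le two_pos hm
  refine ⟨isCover m, pathConnected_cov m, monodromy_meridian m, ?_, ?_⟩
  · refine ⟨⟨fun e => Complex.exp (e.1.2.2 / m) / e.1.2.1, ?_⟩, ?_⟩
    · have h0 : Continuous fun p : Cov m => (p.1 : ℂ × ℂ × ℂ) := continuous_subtype_val
      exact Continuous.div (by fun_prop) (by fun_prop) (fun e => e.2.2.1)
    · intro e
      refine ⟨div_ne_zero (Complex.exp_ne_zero _) e.2.2.1, ?_, ?_⟩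
      · change (Complex.exp (e.1.2.2 / m) / e.1.2.1) ^ m = e.1.1
        rw [div_pow, ← Complex.exp_nat_mul, mul_div_cancel₀ _ (by exact_mod_cast hm0.ne'),
          e.2.1, mul_div_cancel_right₀ _ (pow_ne_zero m e.2.2.1)]
      · change Complex.exp ((e.1.2.2 + 2 * Real.pi * Complex.I * ((1 : ℤ) : ℂ)) / m) / e.1.2.1 =
          Complex.exp (2 * Real.pi * Complex.I / m) * (Complex.exp (e.1.2.2 / m) / e.1.2.1)
        rw [Int.cast_one, mul_one, add_div, Complex.exp_add]
        ring
  · intro S hS
    have hz : zeta (J := Unit) (fun _ => m) (fun _ => 1) (fun _ => Gm m hm0) =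
        PowerSeries.C (cls (Gm m hm0)) *
          (PowerSeries.C (Linv 1) * PowerSeries.X ^ m * invFactor 1 m) := by
      have h1 : (Finset.univ.filter fun I : Finset Unit => I.Nonempty) = {Finset.univ} := by
        decide
      rw [zeta, h1, Finset.sum_singleton]
      simp
    rw [hz] at hS
    obtain ⟨s, hs, hsm⟩ := exists_pole hm0 (psi_Gm m hm0) S hS
    refine ⟨s, hs, fun n hn => ?_⟩
    have h1 := deck_eigenvalue m n _ hn
    rw [Complex.exp_eq_one_iff] at h1
    obtain ⟨k, hk⟩ := h1
    have ha : 0 < s.1 := (hS.1 s hs).1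
    have hpi : (2 * Real.pi * Complex.I : ℂ) ≠ 0 := Complex.two_pi_I_ne_zero
    have hs2 : ((s.2 : ℕ) : ℂ) = m * s.1 := by rw [hsm]; push_cast; ring
    have ha' : ((s.1 : ℕ) : ℂ) ≠ 0 := by exact_mod_cast ha.ne'
    have hm' : (m : ℂ) ≠ 0 := by exact_mod_cast hm0.ne'
    rw [hs2] at hk
    have h2 : (2 * Real.pi * Complex.I * s.1 / (m * s.1) : ℂ) = (2 * Real.pi * Complex.I) / m := by
      field_simp
    rw [h2] at hk
    have h3 : (-1 : ℂ) = k * m := by
      have : (2 * Real.pi * Complex.I : ℂ) * (-1) = (2 * Real.pi * Complex.I) * (k * m) := by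
        field_simp at hk
        linear_combination (2 * Real.pi * Complex.I) * hk
      exact mul_left_cancel₀ hpi this
    have h4 : (-1 : ℤ) = k * m := by exact_mod_cast h3
    have h5 : (m : ℤ) ∣ 1 := ⟨-k, by linarith⟩
    have h6 : (m : ℤ) ≤ 1 := Int.le_of_dvd one_pos h5
    omega

end Pool.Agent.Results.MP_5b74a0_ag.PoleNotAlexander
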